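import Pool.Agent.helper34.MO.SpecD

/-! # MO: row EVK -/

set_option autoImplicit false

open Complex Finset

namespace Pool.Agent.MO

theorem EVK_pow {n : ℕ} (M : Matrix (Fin n) (Fin n) ℝ) (hM : M.IsHermitian) (k : ℕ) :
    (M.charpoly.roots.map (fun x => x ^ k)).sum = (M ^ k).trace := by
  have h1 : M ^ k = Unitary.conjStarAlgAut ℝ _ hM.eigenvectorUnitary
      (Matrix.diagonal (fun i => hM.eigenvalues i ^ k)) := by
    have h2 := hM.spectral_theorem
    have h3 : M ^ k = (Unitary.conjStarAlgAut ℝ _ hM.eigenvectorUnitary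
      (Matrix.diagonal (RCLike.ofReal ∘ hM.eigenvalues))) ^ k := congrArg (fun y => y ^ k) h2
    rw [h3, ← map_pow, Matrix.diagonal_pow]
    rfl
  have h4 : (M ^ k).trace = ∑ i, hM.eigenvalues i ^ k := by
    rw [h1, Unitary.conjStarAlgAut_apply, Matrix.trace_mul_comm, ← mul_assoc,
      Unitary.coe_star_mul_self, one_mul, Matrix.trace_diagonal]
  rw [h4, hM.roots_charpoly_eq_eigenvalues, Multiset.map_map]
  rfl

theorem EVK : EVK_stmt := by
  intro A n hA
  have hM : (Matrix.of (fun i j : Fin n => A i.1 j.1)).IsHermitian := by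
    ext i j
    show star (A j.1 i.1) = A i.1 j.1
    rw [hA j.1 i.1]
    rfl
  have hs : ∀ f : ℕ → ℝ, ∑ i ∈ range n, f i = ∑ i : Fin n, f i.1 := fun f => sum_range f
  have key := EVK_pow _ hM
  refine ⟨?_, ?_, ?_, ?_, ?_⟩
  · unfold evA
    rw [hM.roots_charpoly_eq_eigenvalues, Multiset.card_map]
    show (univ : Finset (Fin n)).card = n
    rw [card_univ, Fintype.card_fin]
  · have h := key 1
    simp only [pow_one] at h
    rw [Multiset.map_id'] at h
    unfold evA
    rw [h, hs]
    rfl
  · have h := key 2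
    unfold evA
    rw [h, hs, pow_two]
    unfold Matrix.trace
    refine sum_congr rfl fun i _ => ?_
    rw [Matrix.diag_apply, Matrix.mul_apply, hs]
    refine sum_congr rfl fun j _ => ?_
    show A i.1 j.1 * A j.1 i.1 = A i.1 j.1 ^ 2
    rw [hA j.1 i.1, pow_two]
  · have h := key 3
    unfold evA
    rw [h, hs, pow_succ, pow_two]
    unfold Matrix.trace
    refine sum_congr rfl fun i _ => ?_
    rw [Matrix.diag_apply, Matrix.mul_apply]
    have e1 : ∀ k : Fin n, ((Matrix.of (fun i j : Fin n => A i.1 j.1)) *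
        (Matrix.of (fun i j : Fin n => A i.1 j.1))) i k * (Matrix.of (fun i j : Fin n => A i.1 j.1)) k i =
        ∑ j : Fin n, A i.1 j.1 * A j.1 k.1 * A k.1 i.1 := by
      intro k
      rw [Matrix.mul_apply, sum_mul]
      rfl
    rw [sum_congr rfl fun k _ => e1 k, sum_comm, hs]
    refine sum_congr rfl fun j _ => ?_
    rw [hs]
  · have h := key 4
    unfold evA
    have e4 : (Matrix.of (fun i j : Fin n => A i.1 j.1)) ^ 4 =
        (Matrix.of (fun i j : Fin n => A i.1 j.1) * Matrix.of (fun i j : Fin n => A i.1 j.1)) *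
        (Matrix.of (fun i j : Fin n => A i.1 j.1) * Matrix.of (fun i j : Fin n => A i.1 j.1)) := by
      rw [pow_succ, pow_succ, pow_two, mul_assoc]
    rw [h, hs, e4]
    unfold Matrix.trace
    refine sum_congr rfl fun i _ => ?_
    rw [Matrix.diag_apply, Matrix.mul_apply, hs]
    refine sum_congr rfl fun j _ => ?_
    have e1 : (Matrix.of (fun i j : Fin n => A i.1 j.1) *
        Matrix.of (fun i j : Fin n => A i.1 j.1)) i j = ∑ k ∈ range n, A i.1 k * A k j.1 := by
      rw [Matrix.mul_apply, hs]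
      rfl
    have e2 : (Matrix.of (fun i j : Fin n => A i.1 j.1) *
        Matrix.of (fun i j : Fin n => A i.1 j.1)) j i = ∑ k ∈ range n, A i.1 k * A k j.1 := by
      rw [Matrix.mul_apply, hs]
      refine sum_congr rfl fun k _ => ?_
      show A j.1 k.1 * A k.1 i.1 = A i.1 k.1 * A k.1 j.1
      rw [hA j.1 k.1, hA k.1 i.1, mul_comm]
    rw [e1, e2, pow_two]

end Pool.Agent.MO
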